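import Mathlib

set_option autoImplicit false

/-!
# Project GQ, package GDG: the part that does not depend on the definitions
-/

namespace Pool.Agent.P8H55.GQ

open Finset

/-- substitution `n ↦ N - n` -/
theorem subst_sum (w f : ℕ → ℝ) {N m X : ℕ} (hX : X ≤ N) :
    ∑ n ∈ Icc 1 X, ((w (N - n) : ℝ) : ℂ) *
      (if 1 ≤ (((1 : ℕ) : ℤ) * n + ((m : ℤ) - N)) then
        ((f (((1 : ℕ) : ℤ) * n + ((m : ℤ) - N)).toNat : ℝ) : ℂ) else 0) =
      ((∑ k ∈ (Ico (N - X) N).filter (fun k => k < m), w k * f (m - k) : ℝ) : ℂ) := by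
  have h1 : ∑ n ∈ Icc 1 X, ((w (N - n) : ℝ) : ℂ) *
      (if 1 ≤ (((1 : ℕ) : ℤ) * n + ((m : ℤ) - N)) then
        ((f (((1 : ℕ) : ℤ) * n + ((m : ℤ) - N)).toNat : ℝ) : ℂ) else 0) =
      ∑ k ∈ Ico (N - X) N, (if k < m then ((w k : ℝ) : ℂ) * ((f (m - k) : ℝ) : ℂ) else 0) := by
    refine Finset.sum_bij' (fun n _ => N - n) (fun k _ => N - k) ?_ ?_ ?_ ?_ ?_
    · intro n hn
      rw [mem_Icc] at hn
      rw [mem_Ico]
      omega
    · intro k hk
      rw [mem_Ico] at hk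
      rw [mem_Icc]
      omega
    · intro n hn
      rw [mem_Icc] at hn
      omega
    · intro k hk
      rw [mem_Ico] at hk
      omega
    · intro n hn
      rw [mem_Icc] at hn
      by_cases h : N - n < m
      · rw [if_pos h, if_pos (by omega)]
        congr 4
        omega
      · rw [if_neg h, if_neg (by omega), mul_zero]
  rw [h1, ← Finset.sum_filter]
  push_cast
  rfl

/-- the sum over `1 ≤ k ≤ y` as a difference -/
theorem diff_sum (g : ℕ → ℝ) {N m y : ℕ} (hm : m ≤ N) (hy : y < m) :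
    ∑ k ∈ Icc 1 y, g k =
      ∑ k ∈ (Ico (N - (N - 1)) N).filter (fun k => k < m), g k -
      ∑ k ∈ (Ico (N - (N - 1 - y)) N).filter (fun k => k < m), g k := by
  have h1 : (Ico (N - (N - 1)) N).filter (fun k => k < m) =
      (Icc 1 y) ∪ (Ico (N - (N - 1 - y)) N).filter (fun k => k < m) := by
    ext k
    simp only [mem_filter, mem_Ico, mem_union, mem_Icc]
    omega
  have h2 : Disjoint (Icc 1 y) ((Ico (N - (N - 1 - y)) N).filter (fun k => k < m)) := by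
    rw [Finset.disjoint_left]
    intro k hk hk2
    simp only [mem_filter, mem_Ico, mem_Icc] at hk hk2
    omega
  rw [h1, Finset.sum_union h2]
  ring

/-- the reflected sum -/
theorem refl_sum (g h : ℕ → ℝ) {N m y : ℕ} (hm : m ≤ N) (hy : y < m) :
    ∑ k ∈ (Ico (N - (N - (m - y))) N).filter (fun k => k < m), g k * h (m - k) =
      ∑ n ∈ Icc 1 y, h n * g (m - n) := by
  refine Finset.sum_bij' (fun n _ => m - n) (fun k _ => m - k) ?_ ?_ ?_ ?_ ?_
  · intro n hn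
    simp only [mem_filter, mem_Ico] at hn
    rw [mem_Icc]
    omega
  · intro k hk
    rw [mem_Icc] at hk
    simp only [mem_filter, mem_Ico]
    omega
  · intro n hn
    simp only [mem_filter, mem_Ico] at hn
    omega
  · intro k hk
    rw [mem_Icc] at hk
    omega
  · intro n hn
    simp only [mem_filter, mem_Ico] at hn
    rw [show m - (m - n) = n by omega, mul_comm]

/-- from the two correlations to the sum of two models -/
theorem two_models (t M d : ℕ → ℝ) (hd : ∀ n, d n = t n - M n) {N m y : ℕ} (hm : m ≤ N) (hy : y < m)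
    {E : ℝ}
    (H1 : ∀ X : ℕ, X ≤ N → ‖∑ n ∈ Icc 1 X, ((t (N - n) : ℝ) : ℂ) *
      (if 1 ≤ (((1 : ℕ) : ℤ) * n + ((m : ℤ) - N)) then
        ((d (((1 : ℕ) : ℤ) * n + ((m : ℤ) - N)).toNat : ℝ) : ℂ) else 0)‖ ≤ E)
    (H2 : ∀ X : ℕ, X ≤ N → ‖∑ n ∈ Icc 1 X, ((M (N - n) : ℝ) : ℂ) *
      (if 1 ≤ (((1 : ℕ) : ℤ) * n + ((m : ℤ) - N)) then
        ((d (((1 : ℕ) : ℤ) * n + ((m : ℤ) - N)).toNat : ℝ) : ℂ) else 0)‖ ≤ E) :
    |∑ n ∈ Icc 1 y, t n * t (m - n) - ∑ n ∈ Icc 1 y, M n * M (m - n)| ≤ 3 * E := by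
  have a1 := H1 (N - 1) (by omega)
  have a2 := H1 (N - 1 - y) (by omega)
  have a3 := H2 (N - (m - y)) (by omega)
  rw [subst_sum t d (by omega), Complex.norm_real, Real.norm_eq_abs] at a1 a2
  rw [subst_sum M d (by omega), Complex.norm_real, Real.norm_eq_abs, refl_sum M d hm hy] at a3
  have h1 := diff_sum (fun k => t k * d (m - k)) hm hy
  have h2 : ∑ n ∈ Icc 1 y, t n * t (m - n) - ∑ n ∈ Icc 1 y, M n * M (m - n) =
      ∑ n ∈ Icc 1 y, t n * d (m - n) + ∑ n ∈ Icc 1 y, d n * M (m - n) := by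
    rw [← Finset.sum_sub_distrib, ← Finset.sum_add_distrib]
    refine Finset.sum_congr rfl fun n _ => ?_
    rw [hd, hd]
    ring
  rw [h2, h1]
  rw [abs_le] at a1 a2 a3 ⊢
  constructor <;> linarith [a1.1, a1.2, a2.1, a2.2, a3.1, a3.2]

/-- exponentials beat powers -/
theorem pow_exp' (K : ℕ) (C0 : ℝ) : ∃ l1 : ℝ, 1 ≤ l1 ∧ ∀ l : ℝ, l1 ≤ l → ∀ t : ℝ, 0 ≤ t →
    t ≤ 18 * l ^ 2 → C0 * t ^ K ≤ Real.exp (l / 100) := by
  refine ⟨max 1 (|C0| * 18 ^ K * (100 ^ (2 * K + 1) * (2 * K + 1).factorial)), le_max_left _ _,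
    fun l hl t ht0 ht => ?_⟩
  have hl1 : 1 ≤ l := (le_max_left _ _).trans hl
  have hl2 : |C0| * 18 ^ K * (100 ^ (2 * K + 1) * (2 * K + 1).factorial) ≤ l :=
    (le_max_right _ _).trans hl
  have hl0 : 0 < l := by linarith
  have h1 := Real.pow_div_factorial_le_exp (l / 100) (by positivity) (2 * K + 1)
  refine le_trans ?_ h1
  have h2 : C0 * t ^ K ≤ |C0| * (18 * l ^ 2) ^ K := by
    calc C0 * t ^ K ≤ |C0| * t ^ K := mul_le_mul_of_nonneg_right (le_abs_self _) (by positivity)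
      _ ≤ _ := mul_le_mul_of_nonneg_left (pow_le_pow_left₀ ht0 ht K) (abs_nonneg _)
  refine h2.trans ?_
  have hfac : (0 : ℝ) < (2 * K + 1).factorial := by exact_mod_cast Nat.factorial_pos _
  rw [div_pow, div_div, le_div_iff₀ (by positivity)]
  calc |C0| * (18 * l ^ 2) ^ K * (100 ^ (2 * K + 1) * (2 * K + 1).factorial) =
        (|C0| * 18 ^ K * (100 ^ (2 * K + 1) * (2 * K + 1).factorial)) * l ^ (2 * K) := by
          rw [mul_pow, ← pow_mul]; ring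
    _ ≤ l * l ^ (2 * K) := mul_le_mul_of_nonneg_right hl2 (by positivity)
    _ = l ^ (2 * K + 1) := by rw [pow_succ]; ring

/-- the fourth root of the logarithm against `l` -/
theorem quarter {C l L : ℝ} (hC : 0 < C) (hL0 : 0 ≤ L) (hL : L ≤ 18 * l ^ 2) (hl : 2000 * C ^ 2 ≤ l)
    (hl1 : 1 ≤ l) : C * L ^ (1 / 4 : ℝ) ≤ l / 16 := by
  have e1 : L ^ (1 / 4 : ℝ) ≤ √(5 * l) := by
    have e2 : L ≤ (5 * l) ^ 2 := by nlinarith
    calc L ^ (1 / 4 : ℝ) ≤ ((5 * l) ^ 2) ^ (1 / 4 : ℝ) := Real.rpow_le_rpow hL0 e2 (by norm_num)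
      _ = √(5 * l) := by
          rw [Real.sqrt_eq_rpow, ← Real.rpow_natCast, ← Real.rpow_mul (by linarith)]
          norm_num
  have e3 : C * √(5 * l) = √(C ^ 2 * (5 * l)) := by
    rw [Real.sqrt_mul (sq_nonneg C) (5 * l), Real.sqrt_sq hC.le]
  calc C * L ^ (1 / 4 : ℝ) ≤ C * √(5 * l) := mul_le_mul_of_nonneg_left e1 hC.le
    _ = √(C ^ 2 * (5 * l)) := e3
    _ ≤ l / 16 := by
        rw [Real.sqrt_le_left (by linarith)]
        nlinarith

/-- the errors -/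
theorem errors (V : ℕ) {C : ℝ} (hC : 0 < C) : ∃ l0 : ℝ, 1000 ≤ l0 ∧ ∀ (l : ℝ) (N Q : ℕ), l0 ≤ l →
    800 * l ≤ Real.log N → Real.log N ≤ 18 * l ^ 2 → (Q : ℝ) ≤ Real.exp (l / 2) →
    Real.exp (l / 2 - 1) ≤ Q →
    3 * (N / Real.log N ^ (V + 2)) ≤ N / Real.log N ^ V / 8 ∧
    N * (Real.exp (C * Real.log N ^ (1 / 4 : ℝ)) * (Q : ℝ) ^ (-(1 / 4) : ℝ)) ≤
      N / Real.log N ^ V / 8 ∧
    2 * (Q : ℝ) ^ 4 ≤ N / Real.log N ^ V / 8 ∧
    4 * √(N : ℝ) * Real.log N ^ 2 ≤ N / Real.log N ^ V / 8 := by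
  obtain ⟨l1, hl1, hp1⟩ := pow_exp' V 16
  obtain ⟨l2, hl2, hp2⟩ := pow_exp' (V + 2) 32
  refine ⟨l1 + l2 + 2000 * C ^ 2 + 1000, by nlinarith [sq_nonneg C], fun l N Q hl h1 h2 hQ1 hQ2 => ?_⟩
  have hC2 : 0 ≤ 2000 * C ^ 2 := by positivity
  have hl1000 : 1000 ≤ l := by linarith
  obtain ⟨L, hL⟩ : ∃ L, L = Real.log N := ⟨_, rfl⟩
  rw [← hL] at h1 h2 ⊢
  have hLp : 0 < L := by linarith
  have hL1 : 1 ≤ L := by linarith
  have hN0 : (0 : ℝ) < N := by
    rcases Nat.eq_zero_or_pos N with h | h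
    · subst h
      rw [Nat.cast_zero, Real.log_zero] at hL
      linarith
    · exact_mod_cast h
  have hNe : (N : ℝ) = Real.exp L := by rw [hL, Real.exp_log hN0]
  have hA := hp1 l (by linarith) L hLp.le h2
  have hB := hp2 l (by linarith) L hLp.le h2
  have hLV : 0 < L ^ V := by positivity
  have hQ0 : (0 : ℝ) < Q := lt_of_lt_of_le (Real.exp_pos _) hQ2
  refine ⟨?_, ?_, ?_, ?_⟩
  · rw [div_div, ← mul_div_assoc, div_le_div_iff₀ (by positivity) (by positivity)]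
    have e1 : L ^ (V + 2) = L ^ V * (L * L) := by ring
    rw [e1]
    have e2 : 24 ≤ L * L := by nlinarith
    have e3 : 0 < (N : ℝ) * L ^ V := by positivity
    nlinarith
  · rw [div_div]
    rw [le_div_iff₀ (by positivity)]
    have e1 := quarter hC hLp.le h2 (by linarith) (by linarith)
    have e2 : (Q : ℝ) ^ (-(1 / 4) : ℝ) ≤ Real.exp (-(l / 8) + 1 / 4) := by
      calc (Q : ℝ) ^ (-(1 / 4) : ℝ) ≤ Real.exp (l / 2 - 1) ^ (-(1 / 4) : ℝ) :=
            Real.rpow_le_rpow_of_nonpos (Real.exp_pos _) hQ2 (by norm_num)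
        _ = Real.exp (-(l / 8) + 1 / 4) := by
            rw [← Real.exp_mul]; congr 1; ring
    have e3 : Real.exp (C * L ^ (1 / 4 : ℝ)) * (Q : ℝ) ^ (-(1 / 4) : ℝ) ≤
        Real.exp (l / 16) * Real.exp (-(l / 8) + 1 / 4) :=
      mul_le_mul (Real.exp_le_exp.2 e1) e2 (Real.rpow_nonneg hQ0.le _) (Real.exp_pos _).le
    have e4 : Real.exp (l / 16) * Real.exp (-(l / 8) + 1 / 4) * (L ^ V * 8) ≤ 1 := by
      calc Real.exp (l / 16) * Real.exp (-(l / 8) + 1 / 4) * (L ^ V * 8) ≤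
            Real.exp (l / 16) * Real.exp (-(l / 8) + 1 / 4) * Real.exp (l / 100) := by
            apply mul_le_mul_of_nonneg_left _ (by positivity)
            linarith
        _ = Real.exp (l / 16 + (-(l / 8) + 1 / 4) + l / 100) := by
            rw [Real.exp_add (l / 16 + (-(l / 8) + 1 / 4)) (l / 100), Real.exp_add (l / 16)]
        _ ≤ Real.exp 0 := Real.exp_le_exp.2 (by linarith)
        _ = 1 := Real.exp_zero
    calc N * (Real.exp (C * L ^ (1 / 4 : ℝ)) * (Q : ℝ) ^ (-(1 / 4) : ℝ)) * (L ^ V * 8) ≤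
          N * (Real.exp (l / 16) * Real.exp (-(l / 8) + 1 / 4)) * (L ^ V * 8) := by gcongr
      _ = N * (Real.exp (l / 16) * Real.exp (-(l / 8) + 1 / 4) * (L ^ V * 8)) := by ring
      _ ≤ N * 1 := by gcongr
      _ = N := mul_one _
  · rw [div_div, le_div_iff₀ (by positivity)]
    have e1 : (Q : ℝ) ^ 4 ≤ Real.exp (2 * l) := by
      calc (Q : ℝ) ^ 4 ≤ Real.exp (l / 2) ^ 4 := pow_le_pow_left₀ hQ0.le hQ1 4
        _ = _ := by rw [← Real.exp_nat_mul]; congr 1; push_cast; ring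
    calc 2 * (Q : ℝ) ^ 4 * (L ^ V * 8) = (Q : ℝ) ^ 4 * (16 * L ^ V) := by ring
      _ ≤ Real.exp (2 * l) * Real.exp (l / 100) := by gcongr
      _ = Real.exp (2 * l + l / 100) := by rw [Real.exp_add]
      _ ≤ Real.exp L := Real.exp_le_exp.2 (by linarith)
      _ = N := hNe.symm
  · rw [div_div, le_div_iff₀ (by positivity)]
    have e1 : √(N : ℝ) * √(N : ℝ) = N := Real.mul_self_sqrt hN0.le
    have e2 : Real.exp (l / 100) ≤ √(N : ℝ) := by
      apply Real.le_sqrt_of_sq_le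
      rw [← Real.exp_nat_mul, hNe]
      apply Real.exp_le_exp.2
      push_cast
      linarith
    have e3 : 0 ≤ √(N : ℝ) := Real.sqrt_nonneg _
    calc 4 * √(N : ℝ) * L ^ 2 * (L ^ V * 8) = √(N : ℝ) * (32 * L ^ (V + 2)) := by ring
      _ ≤ √(N : ℝ) * √(N : ℝ) := mul_le_mul_of_nonneg_left (hB.trans e2) e3
      _ = N := e1

end Pool.Agent.P8H55.GQ
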