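import Pool.Agent.P8H14.GQ.Stm
import Pool.Agent.P8H55.GQ.Core

set_option autoImplicit false

/-!
# Project GQ, package GDG: from the model to Goldbach pairs, at one scale
-/

namespace Pool.Agent.P8H55.GQ

open Finset
open Pool.Agent.P8H13.PK (th mo th_nonneg)
open Pool.Agent.P8H14.PL (df Ql df_eq)
open Pool.Agent.P8H14.SS (SG)
open Pool.Agent.H373R2.T7 (exI energy lamI lamP lamP_nonneg)
open Pool.Agent.H560R3.GB (sing)
open Pool.Agent.W93.PG
open Pool.Agent.W93.GB (pp pp_nonneg sum_pp sum_pp' vM_le)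
open Pool.Agent.P8H14.GQ

theorem gdg : S_REF → S_SNG → S_GDG := by
  rintro ⟨C, hC, hREF⟩ hSNG V
  obtain ⟨l0, hl0, herr⟩ := errors V hC
  refine ⟨V + 2, l0, by omega, fun l N hl h1 h2 m hm1 hmN hme H1 H2 y hy => ?_⟩
  have hl1000 : 1000 ≤ l := hl0.trans hl
  obtain ⟨L, hL⟩ : ∃ L, L = Real.log N := ⟨_, rfl⟩
  have hLp : 0 < Real.log N := by linarith
  have hN0 : (0 : ℝ) < N := by
    rcases Nat.eq_zero_or_pos N with h | h
    · subst h
      rw [Nat.cast_zero, Real.log_zero] at hLp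
      exact absurd hLp (lt_irrefl _)
    · exact_mod_cast h
  have hQ1 : (Ql l : ℝ) ≤ Real.exp (l / 2) := Nat.floor_le (Real.exp_pos _).le
  have hQ2 : Real.exp (l / 2 - 1) ≤ Ql l := by
    have h1 : Real.exp (l / 2) < Ql l + 1 := Nat.lt_floor_add_one _
    have h2 : Real.exp (l / 2) = Real.exp (l / 2 - 1) * Real.exp 1 := by rw [← Real.exp_add]; ring_nf
    have h3 := Real.add_one_le_exp (1 : ℝ)
    have h4 : 1 ≤ Real.exp (l / 2 - 1) := Real.one_le_exp (by linarith)
    have h5 : Real.exp (l / 2 - 1) * 2 ≤ Real.exp (l / 2 - 1) * Real.exp 1 :=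
      mul_le_mul_of_nonneg_left (by linarith) (Real.exp_pos _).le
    linarith
  have hQn : 1 ≤ Ql l := by
    have : (0 : ℝ) < Ql l := lt_of_lt_of_le (Real.exp_pos _) hQ2
    exact_mod_cast this
  obtain ⟨e1, e2, e3, e4⟩ := herr l N (Ql l) hl h1 h2 hQ1 hQ2
  -- the two models
  have a1 := two_models th (fun n => mo 1 (Ql l) 0 n) (df l) (fun n => df_eq l n) hmN hy H1 H2
  -- the sum over the model
  have a2 := hREF (Ql l) m y (Real.log N) (by linarith) hQn hm1
    (by rw [Real.exp_log hN0]; exact_mod_cast hmN) hy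
  rw [hSNG m hm1 hme] at a2
  have hyN : (y : ℝ) ≤ N := by exact_mod_cast (by omega : y ≤ N)
  have a3 : (y : ℝ) * (Real.exp (C * Real.log N ^ (1 / 4 : ℝ)) * ((Ql l : ℕ) : ℝ) ^ (-(1 / 4) : ℝ)) ≤
      N * (Real.exp (C * Real.log N ^ (1 / 4 : ℝ)) * ((Ql l : ℕ) : ℝ) ^ (-(1 / 4) : ℝ)) :=
    mul_le_mul_of_nonneg_right hyN
      (mul_nonneg (Real.exp_pos _).le (Real.rpow_nonneg (Nat.cast_nonneg _) _))
  -- primes against prime powers
  have hlm : Real.log m ≤ Real.log N := Real.log_le_log (by exact_mod_cast hm1) (by exact_mod_cast hmN)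
  have hlm0 : 0 ≤ Real.log m := Real.log_natCast_nonneg m
  have hth : ∀ n : ℕ, lamP (n : ℤ) = th n := by
    intro n
    unfold lamP th
    rw [Int.toNat_natCast]
  have b1 : ∀ n ∈ Icc 1 y, th n * th (m - n) ≤ ArithmeticFunction.vonMangoldt n * lamI ((m : ℤ) - n) ∧
      ArithmeticFunction.vonMangoldt n * lamI ((m : ℤ) - n) ≤
        th n * th (m - n) + Real.log m * (pp n + pp (m - n)) := by
    intro n hn
    rw [mem_Icc] at hn
    rw [lam_sub m n (by omega)]
    have c1 := vM_le (m - n) m hm1 (by omega)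
    have c3 : th n ≤ Real.log m := Pool.Agent.P8H13.PK.th_le_of_le (by omega)
    have c4 := pp_nonneg n
    have c5 := pp_nonneg (m - n)
    have c7 := th_nonneg n
    have c8 := th_nonneg (m - n)
    have c9 : (0 : ℝ) ≤ ArithmeticFunction.vonMangoldt (m - n) := ArithmeticFunction.vonMangoldt_nonneg
    have e : ArithmeticFunction.vonMangoldt n * ArithmeticFunction.vonMangoldt (m - n) =
        th n * th (m - n) + (pp n * ArithmeticFunction.vonMangoldt (m - n) + th n * pp (m - n)) := by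
      unfold pp
      rw [hth, hth]
      ring
    rw [e]
    have a8 : pp n * ArithmeticFunction.vonMangoldt (m - n) ≤ pp n * Real.log m :=
      mul_le_mul_of_nonneg_left c1 c4
    have a9 : th n * pp (m - n) ≤ Real.log m * pp (m - n) := mul_le_mul_of_nonneg_right c3 c5
    have a10 : 0 ≤ pp n * ArithmeticFunction.vonMangoldt (m - n) := mul_nonneg c4 c9
    have a11 : 0 ≤ th n * pp (m - n) := mul_nonneg c7 c5
    constructor <;> linarith
  have b2 := Finset.sum_le_sum fun n hn => (b1 n hn).1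
  have b3 := Finset.sum_le_sum fun n hn => (b1 n hn).2
  rw [sum_add_distrib, ← mul_sum] at b3
  have hsub : Icc 1 y ⊆ Icc 1 m := Finset.Icc_subset_Icc le_rfl hy.le
  have b4 : ∑ n ∈ Icc 1 y, (pp n + pp (m - n)) ≤ ∑ n ∈ Icc 1 m, (pp n + pp (m - n)) :=
    sum_le_sum_of_subset_of_nonneg hsub (fun n _ _ => add_nonneg (pp_nonneg _) (pp_nonneg _))
  rw [sum_add_distrib (s := Icc 1 m)] at b4
  have b5 := sum_pp m hm1
  have b6 := sum_pp' m hm1
  have b7 : Real.log m * ∑ n ∈ Icc 1 y, (pp n + pp (m - n)) ≤ 4 * √(N : ℝ) * Real.log N ^ 2 := by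
    have c1 : ∑ n ∈ Icc 1 y, (pp n + pp (m - n)) ≤ 4 * √(m : ℝ) * Real.log m := by linarith
    have c2 : √(m : ℝ) ≤ √(N : ℝ) := Real.sqrt_le_sqrt (by exact_mod_cast hmN)
    calc Real.log m * ∑ n ∈ Icc 1 y, (pp n + pp (m - n)) ≤ Real.log m * (4 * √(m : ℝ) * Real.log m) :=
          mul_le_mul_of_nonneg_left c1 hlm0
      _ ≤ Real.log N * (4 * √(N : ℝ) * Real.log N) := by gcongr
      _ = _ := by ring
  rw [abs_le] at a1 a2 ⊢
  obtain ⟨a11, a12⟩ := a1
  obtain ⟨a21, a22⟩ := a2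
  constructor <;> linarith

end Pool.Agent.P8H55.GQ
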